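import Pool.Agent.U280.OD.Stm

/-!
# Project OD, package C: the heat semigroup as a convolution, and its limit
-/

set_option autoImplicit false

open MeasureTheory FourierTransform Set Filter Topology Module

namespace Pool.Agent.U941.OD.C

open Pool.Agent.U280.OD

theorem heat_eq {d : ℕ} (u : E d → ℂ) (hf : Integrable u) (c : ℝ) (hc : 0 < c) (s : ℝ)
    (hs : c⁻¹ = 4 * Real.pi ^ 2 * s) (x : E d) :
    heat s u x = ∫ w : E d, (((Real.pi : ℂ) * c) ^ (finrank ℝ (E d) / 2 : ℂ) *
      Complex.exp (-(Real.pi : ℂ) ^ 2 * c * (‖x - w‖ : ℂ) ^ 2)) • u w := by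
  have A : heat s u x = ∫ w : E d, Complex.exp (-((c⁻¹ : ℝ) : ℂ) * (‖w‖ : ℂ) ^ 2 +
      2 * Real.pi * Complex.I * (inner ℝ x w : ℝ)) • (𝓕 u) w := by
    unfold heat
    rw [Real.fourierInv_eq]
    congr 1 with w
    rw [Circle.smul_def, Real.fourierChar_apply, smul_eq_mul, smul_eq_mul, ← mul_assoc,
      Complex.ofReal_exp, ← Complex.exp_add, real_inner_comm]
    congr 2
    rw [hs]
    unfold lam
    push_cast
    ring
  have J : Integrable (fun w : E d ↦ Complex.exp (-((c⁻¹ : ℝ) : ℂ) * (‖w‖ : ℂ) ^ 2 +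
      2 * Real.pi * Complex.I * (inner ℝ x w : ℝ))) :=
    GaussianFourier.integrable_cexp_neg_mul_sq_norm_add (by simpa) _ _
  have B : heat s u x = ∫ w : E d, 𝓕 (fun w : E d ↦ Complex.exp (-((c⁻¹ : ℝ) : ℂ) * (‖w‖ : ℂ) ^ 2 +
      2 * Real.pi * Complex.I * (inner ℝ x w : ℝ))) w • u w := by
    rw [A]
    simpa using! (VectorFourier.integral_fourierIntegral_smul_eq_flip (L := innerₗ (E d))
      Real.continuous_fourierChar continuous_inner J hf).symm
  rw [B]
  congr with w
  rw [fourier_gaussian_innerProductSpace' (by simpa)]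
  congr
  · simp
  · simp; ring

theorem t_C : S_C := by
  intro d u hu hcs
  have hf : Integrable u := hu.integrable_of_hasCompactSupport hcs
  refine ⟨?_, ?_⟩
  · intro s hs x
    have hc : 0 < (4 * Real.pi ^ 2 * s)⁻¹ := by positivity
    rw [heat_eq u hf (4 * Real.pi ^ 2 * s)⁻¹ hc s (inv_inv _) x]
    congr 1 with w
    rw [smul_eq_mul]
    congr 1
    unfold G
    rw [Complex.ofReal_mul, Complex.ofReal_exp, Complex.ofReal_cpow (by positivity)]
    have hfin : finrank ℝ (E d) = d := by simp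
    rw [hfin]
    congr 1
    · have h1 : ((Real.pi : ℂ) * (((4 * Real.pi ^ 2 * s)⁻¹ : ℝ) : ℂ)) =
          (((4 * Real.pi * s)⁻¹ : ℝ) : ℂ) := by
        rw [← Complex.ofReal_mul]
        congr 1
        field_simp
      rw [h1]
      have h2 : (((4 * Real.pi * s)⁻¹ : ℝ) : ℂ) ^ ((d : ℂ) / 2) =
          ((((4 * Real.pi * s)⁻¹ : ℝ) ^ ((d : ℝ) / 2) : ℝ) : ℂ) := by
        rw [Complex.ofReal_cpow (by positivity)]
        push_cast
        rfl
      rw [h2, Real.inv_rpow (by positivity), ← Real.rpow_neg (by positivity),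
        Complex.ofReal_cpow (by positivity)]
      congr 1
      push_cast
      ring
    · congr 1
      push_cast
      field_simp
  · intro x
    have h := Real.tendsto_integral_gaussian_smul' hf (v := x) hu.continuousAt
    have hc : Tendsto (fun s : ℝ => (4 * Real.pi ^ 2 * s)⁻¹) (𝓝[>] 0) atTop := by
      refine tendsto_inv_nhdsGT_zero.comp ?_
      refine tendsto_nhdsWithin_iff.2 ⟨?_, ?_⟩
      · have : Tendsto (fun s : ℝ => 4 * Real.pi ^ 2 * s) (𝓝 0) (𝓝 (4 * Real.pi ^ 2 * 0)) :=
          (continuous_const.mul continuous_id).tendsto 0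
        rw [mul_zero] at this
        exact this.mono_left nhdsWithin_le_nhds
      · filter_upwards [self_mem_nhdsWithin] with s hs
        have : (0 : ℝ) < s := hs
        show (0 : ℝ) < 4 * Real.pi ^ 2 * s
        positivity
    refine (h.comp hc).congr' ?_
    filter_upwards [self_mem_nhdsWithin] with s hs
    have hs' : (0 : ℝ) < s := hs
    rw [heat_eq u hf (4 * Real.pi ^ 2 * s)⁻¹ (by positivity) s (inv_inv _) x]
    rfl

end Pool.Agent.U941.OD.C
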