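import Pool.Agent.U41.OD.Stm2

/-!
Project OD (helper41), package CL: clearing denominators in the genericity conditions.
-/

set_option autoImplicit false

namespace Pool.Agent.U41.OD

open Pool.Agent.H918R2.Quad Pool.Agent.TH214.RM MvPolynomial

section

variable {O K σ : Type} [CommRing O] [IsDomain O] [Field K] [Algebra O K] [IsFractionRing O K]

theorem cl_one (S : Set (MvPolynomial σ O)) (z : MvPolynomial σ O)
    (h : map (algebraMap O K) z ∈ Ideal.span (map (algebraMap O K) '' S)) :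
    ∃ c : O, c ≠ 0 ∧ C c * z ∈ Ideal.span S := by
  obtain ⟨c, hc, y, hy, hyc⟩ := clear_span (R := K) (nonZeroDivisors O) _ _ h
  refine ⟨c, nonZeroDivisors.ne_zero hc, ?_⟩
  have h1 : y = C c * z := by
    apply map_injective _ (IsFractionRing.injective O K)
    rw [hyc, map_mul, map_C]
  rwa [← h1]

theorem cl_rad (S : Set (MvPolynomial σ O)) (z : MvPolynomial σ O)
    (h : map (algebraMap O K) z ∈ (Ideal.span (map (algebraMap O K) '' S)).radical) :
    ∃ c : O, c ≠ 0 ∧ ∃ M : ℕ, C c * z ^ M ∈ Ideal.span S := by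
  obtain ⟨M, hM⟩ := h
  rw [← map_pow] at hM
  obtain ⟨c, hc, h1⟩ := cl_one S _ hM
  exact ⟨c, hc, M, h1⟩

end

theorem cl_mul {O σ : Type} [CommRing O] {I : Ideal (MvPolynomial σ O)} {c N : O}
    {z : MvPolynomial σ O} (h : C c * z ∈ I) (hd : c ∣ N) : C N * z ∈ I := by
  obtain ⟨e, rfl⟩ := hd
  rw [mul_comm c e, C_mul, mul_assoc]
  exact I.mul_mem_left _ h

theorem CL_ok : S_CL := by
  intro O K _ _ _ _ _ n G hG
  classical
  -- sep
  have h1 : ∀ l : {j : Fin (n + 2) // j ≠ 0}, ∃ c : O, c ≠ 0 ∧ ∃ M : ℕ,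
      C c * (rename Sum.inl (X l : MvPolynomial {j : Fin (n + 2) // j ≠ 0} O) -
        rename Sum.inr (X l : MvPolynomial {j : Fin (n + 2) // j ≠ 0} O)) ^ M ∈
      Ideal.span (insert (rename Sum.inl (deh 0 G) - rename Sum.inr (deh 0 G))
        ((Set.range fun j => rename Sum.inl (pderiv j (deh 0 G))) ∪
          (Set.range fun j => rename Sum.inr (pderiv j (deh 0 G)))) :
        Set (MvPolynomial ({j : Fin (n + 2) // j ≠ 0} ⊕ {j : Fin (n + 2) // j ≠ 0}) O)) := by
    intro l
    apply cl_rad (K := K)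
    have h := hG.sep l
    have e1 : (fun j : {j : Fin (n + 2) // j ≠ 0} => (rename Sum.inl (pderiv j (deh 0 (map (algebraMap O K) G))) :
        MvPolynomial ({j : Fin (n + 2) // j ≠ 0} ⊕ {j : Fin (n + 2) // j ≠ 0}) K)) =
        (map (algebraMap O K)) ∘ fun j => rename Sum.inl (pderiv j (deh 0 G)) := by
      funext j
      simp only [Function.comp_apply]
      rw [map_rename, ← pderiv_map, map_deh]
    have e2 : (fun j : {j : Fin (n + 2) // j ≠ 0} => (rename Sum.inr (pderiv j (deh 0 (map (algebraMap O K) G))) :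
        MvPolynomial ({j : Fin (n + 2) // j ≠ 0} ⊕ {j : Fin (n + 2) // j ≠ 0}) K)) =
        (map (algebraMap O K)) ∘ fun j => rename Sum.inr (pderiv j (deh 0 G)) := by
      funext j
      simp only [Function.comp_apply]
      rw [map_rename, ← pderiv_map, map_deh]
    rw [Set.image_insert_eq, Set.image_union, ← Set.range_comp, ← Set.range_comp, ← e1, ← e2,
      map_sub, map_sub, map_rename, map_rename, map_rename, map_rename, map_deh, map_X]
    exact h
  have h2 : ∃ c : O, c ≠ 0 ∧ C c * (1 : MvPolynomial {j : Fin (n + 2) // j ≠ 0} O) ∈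
      Ideal.span (insert (hess (deh 0 G)).det (Set.range fun j => pderiv j (deh 0 G))) := by
    apply cl_one (K := K)
    have h := hG.nondeg
    have e1 : (fun j : {j : Fin (n + 2) // j ≠ 0} => pderiv j (deh 0 (map (algebraMap O K) G))) =
        (map (algebraMap O K)) ∘ fun j => pderiv j (deh 0 G) := by
      funext j
      simp only [Function.comp_apply]
      rw [← pderiv_map, map_deh]
    have e2 : map (algebraMap O K) (hess (deh 0 G)).det = (hess (deh 0 (map (algebraMap O K) G))).det := by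
      rw [RingHom.map_det]
      congr 1
      ext i j : 2
      simp only [hess, RingHom.mapMatrix_apply, Matrix.map_apply, Matrix.of_apply]
      rw [← pderiv_map, ← pderiv_map, map_deh]
    rw [Set.image_insert_eq, ← Set.range_comp, ← e1, e2, map_one]
    exact h
  have h3 : ∀ i : {i : Fin (n + 2) // i ≠ 0}, ∃ c : O, c ≠ 0 ∧ ∃ M : ℕ,
      C c * (X (i : Fin (n + 2)) : MvPolynomial (Fin (n + 2)) O) ^ M ∈
      Ideal.span (insert (X 0) (insert G (Set.range fun j : {j : Fin (n + 2) // j ≠ 0} =>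
        pderiv (j : Fin (n + 2)) G))) := by
    intro i
    apply cl_rad (K := K)
    have h := hG.sect i i.2
    have e1 : (fun j : {j : Fin (n + 2) // j ≠ 0} => pderiv (j : Fin (n + 2)) (map (algebraMap O K) G)) =
        (map (algebraMap O K)) ∘ fun j : {j : Fin (n + 2) // j ≠ 0} => pderiv (j : Fin (n + 2)) G := by
      funext j
      simp only [Function.comp_apply]
      rw [← pderiv_map]
    rw [Set.image_insert_eq, Set.image_insert_eq, ← Set.range_comp, ← e1, map_X, map_X]
    exact h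
  choose c₁ hc₁ M₁ hM₁ using h1
  obtain ⟨c₂, hc₂, hM₂⟩ := h2
  choose c₃ hc₃ M₃ hM₃ using h3
  refine ⟨(∏ l, c₁ l) * c₂ * ∏ i, c₃ i, ?_, ?_, ?_, ?_⟩
  · refine mul_ne_zero (mul_ne_zero ?_ hc₂) ?_
    · exact Finset.prod_ne_zero_iff.2 fun l _ => hc₁ l
    · exact Finset.prod_ne_zero_iff.2 fun l _ => hc₃ l
  · intro l
    refine ⟨M₁ l, cl_mul (hM₁ l) ?_⟩
    exact ((Finset.dvd_prod_of_mem c₁ (Finset.mem_univ l)).mul_right _).mul_right _
  · have := cl_mul (N := (∏ l, c₁ l) * c₂ * ∏ i, c₃ i) hM₂ ((dvd_mul_left _ _).mul_right _)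
    rwa [mul_one] at this
  · intro i hi
    refine ⟨M₃ ⟨i, hi⟩, cl_mul (hM₃ ⟨i, hi⟩) ?_⟩
    exact (Finset.dvd_prod_of_mem c₃ (Finset.mem_univ _)).mul_left _

end Pool.Agent.U41.OD
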